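import Pool.Agent.W680.WH.Stm

/-!
# Project WHH (helper680): unitary implementation of the hyperbolic elements
-/

set_option autoImplicit false

open scoped ComplexConjugate InnerProductSpace
open ContinuousLinearMap Filter

namespace Pool.Agent.W688.WH

open Pool.Agent.W680.WH

theorem inj_of_unit {A : E →L[ℂ] E} (h : IsUnit A) {x y : E} (hxy : A x = A y) : x = y := by
  obtain ⟨u, rfl⟩ := h
  have h1 : ∀ z : E, ((u⁻¹ : (E →L[ℂ] E)ˣ) : E →L[ℂ] E) ((u : E →L[ℂ] E) z) = z := fun z => by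
    have h2 : (((u⁻¹ : (E →L[ℂ] E)ˣ) : E →L[ℂ] E) * (u : E →L[ℂ] E)) z = z := by
      rw [Units.inv_mul]; rfl
    exact h2
  rw [← h1 x, hxy, h1 y]

/-- purely algebraic part: the projection commutes with the shift -/
theorem alg_comm {𝓐 : Type*} [Ring 𝓐] [Algebra ℂ 𝓐] {z V V' : 𝓐} {r : ℂ} (hr : 1 - r ^ 2 ≠ 0)
    (hu : IsUnit (1 + r • z)) (hA : (1 + r • z) * V * z = (z + r • (1 : 𝓐)) * V)
    (hC : z * V' * (1 + r • z) = V' * (z + r • (1 : 𝓐))) : Commute (V * V') z := by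
  obtain ⟨u, hu⟩ := hu
  have h1 : (u : 𝓐) * (V * z * V') = (z + r • (1 : 𝓐)) * (V * V') := by
    rw [hu, ← mul_assoc, ← mul_assoc, hA, mul_assoc]
  have h2 : (V * z * V') * (u : 𝓐) = (V * V') * (z + r • (1 : 𝓐)) := by
    rw [hu, mul_assoc V, mul_assoc V, hC, ← mul_assoc]
  have hzu : Commute z (u : 𝓐) := by
    rw [hu]
    exact (Commute.one_right z).add_right ((Commute.refl z).smul_right r)
  have hzi : Commute z ((u⁻¹ : 𝓐ˣ) : 𝓐) := hzu.units_inv_right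
  have h3 : V * z * V' = ((u⁻¹ : 𝓐ˣ) : 𝓐) * (z + r • (1 : 𝓐)) * (V * V') := by
    rw [mul_assoc (((u⁻¹ : 𝓐ˣ) : 𝓐)) (z + r • (1 : 𝓐)) (V * V'), ← h1,
      ← mul_assoc (((u⁻¹ : 𝓐ˣ) : 𝓐)) (u : 𝓐) (V * z * V'), Units.inv_mul, one_mul]
  have h4 : V * z * V' = (V * V') * ((z + r • (1 : 𝓐)) * ((u⁻¹ : 𝓐ˣ) : 𝓐)) := by
    rw [← mul_assoc (V * V') (z + r • (1 : 𝓐)) (((u⁻¹ : 𝓐ˣ) : 𝓐)), ← h2,
      mul_assoc (V * z * V') (u : 𝓐) (((u⁻¹ : 𝓐ˣ) : 𝓐)), Units.mul_inv, mul_one]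
  have h5 : ((u⁻¹ : 𝓐ˣ) : 𝓐) * (z + r • (1 : 𝓐)) = (z + r • (1 : 𝓐)) * ((u⁻¹ : 𝓐ˣ) : 𝓐) := by
    rw [mul_add, add_mul, hzi.eq, mul_smul_comm, smul_mul_assoc, one_mul, mul_one]
  obtain ⟨ψ, hψ⟩ : ∃ ψ : 𝓐, ψ = (z + r • (1 : 𝓐)) * ((u⁻¹ : 𝓐ˣ) : 𝓐) := ⟨_, rfl⟩
  rw [h5, ← hψ] at h3
  rw [← hψ] at h4
  have hcψ : Commute (V * V') ψ := by
    show V * V' * ψ = ψ * (V * V')
    rw [← h4, ← h3]
  have h6 : (1 : 𝓐) - r • ψ = (1 - r ^ 2) • ((u⁻¹ : 𝓐ˣ) : 𝓐) := by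
    have h7 : (1 : 𝓐) = (1 + r • z) * ((u⁻¹ : 𝓐ˣ) : 𝓐) := by
      rw [← hu, Units.mul_inv]
    have h8 : (1 : 𝓐) - r • ψ = ((1 + r • z) - r • (z + r • (1 : 𝓐))) * ((u⁻¹ : 𝓐ˣ) : 𝓐) := by
      rw [sub_mul, ← h7, hψ, smul_mul_assoc]
    rw [h8]
    have h9 : (1 + r • z) - r • (z + r • (1 : 𝓐)) = (1 - r ^ 2) • (1 : 𝓐) := by
      rw [smul_add, sub_smul, smul_smul, one_smul, pow_two]
      abel
    rw [h9, smul_mul_assoc, one_mul]
  have hcG : Commute (V * V') ((u⁻¹ : 𝓐ˣ) : 𝓐) := by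
    have h10 : Commute (V * V') ((1 : 𝓐) - r • ψ) :=
      (Commute.one_right _).sub_right (hcψ.smul_right r)
    have h11 : ((u⁻¹ : 𝓐ˣ) : 𝓐) = (1 - r ^ 2)⁻¹ • ((1 : 𝓐) - r • ψ) := by
      rw [h6, smul_smul, inv_mul_cancel₀ hr, one_smul]
    rw [h11]
    exact h10.smul_right _
  have hcu : Commute (V * V') (u : 𝓐) := by
    have := hcG.units_inv_right
    rwa [inv_inv] at this
  have hcz : Commute (V * V') (z + r • (1 : 𝓐)) := by
    have h12 : z + r • (1 : 𝓐) = ψ * (u : 𝓐) := by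
      rw [hψ, mul_assoc, Units.inv_mul, mul_one]
    rw [h12]
    exact hcψ.mul_right hcu
  have h13 : Commute (V * V') ((z + r • (1 : 𝓐)) - r • (1 : 𝓐)) :=
    hcz.sub_right ((Commute.one_right _).smul_right r)
  rwa [add_sub_cancel_right] at h13

/-- from the second equation to the one for the adjoint -/
theorem alg_adj {𝓐 : Type*} [Ring 𝓐] [Algebra ℂ 𝓐] {z2 zs V : 𝓐} {r : ℂ}
    (h1 : z2 * zs = 1) (h2 : zs * z2 = 1)
    (hB : (1 + r • z2) * V * z2 = (z2 + r • (1 : 𝓐)) * V) :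
    (1 + r • zs) * V * zs = (zs + r • (1 : 𝓐)) * V := by
  have h3 : zs * ((1 + r • z2) * V * z2) * zs = (zs + r • (1 : 𝓐)) * V := by
    have e1 : zs * (1 + r • z2) = zs + r • (1 : 𝓐) := by
      rw [mul_add, mul_one, mul_smul_comm, h2]
    calc zs * ((1 + r • z2) * V * z2) * zs = (zs * (1 + r • z2)) * V * (z2 * zs) := by
          simp only [mul_assoc]
      _ = (zs + r • (1 : 𝓐)) * V := by rw [e1, h1, mul_one]
  have h4 : zs * ((z2 + r • (1 : 𝓐)) * V) * zs = (1 + r • zs) * V * zs := by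
    have e1 : zs * (z2 + r • (1 : 𝓐)) = 1 + r • zs := by
      rw [mul_add, h2, mul_smul_comm, mul_one]
    calc zs * ((z2 + r • (1 : 𝓐)) * V) * zs = (zs * (z2 + r • (1 : 𝓐))) * V * zs := by
          simp only [mul_assoc]
      _ = (1 + r • zs) * V * zs := by rw [e1]
  rw [← h4, ← hB, h3]

theorem uni (hHV : S_HV) (hREC : S_REC) (hOPA : S_OPA) (hOPC : S_OPC) (hOPJ : S_OPJ)
    (hINV : S_INV) (hIRR : S_IRR) : S_UNI := by
  intro r hr0 hr1
  obtain ⟨h, hh, γ, hγ0, hγp, hγs, hγ⟩ := hHV r hr0 hr1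
  obtain ⟨⟨hZZi, hZiZ, hZ2Zs, hZsZ2⟩, ⟨hadZ, hadZi⟩, ⟨hZe, hZie, -⟩, -⟩ := hOPA
  obtain ⟨hc_eb, hc_Z, -, -, hc_add, hc_smul, -, -, hc_ext, -, -, -, -, hop_ext, -⟩ := hOPC
  obtain ⟨hjZ, -, -, -, -, hjj, hj_add, hj_smul, hj_norm, -, hj_eb, hc_jj⟩ := hOPJ
  obtain ⟨g, hg⟩ : ∃ g : E, g = h + (r : ℂ) • Z h := ⟨_, rfl⟩
  rw [← hg] at hγ
  -- `jj g = g`
  have hjg : jj g = g := by
    apply hc_ext
    intro n
    rw [hc_jj, hγ, hγ, hγs, map_mul, Complex.conj_ofReal]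
    congr 1
    rw [map_zpow₀, map_neg, map_one, zpow_neg, ← inv_zpow]
    norm_num
  obtain ⟨V0, hV0e, hA0, hB0, hV0n⟩ := hREC r h hr0 hr1 hh (by rw [← hg]; exact hjg)
  rw [← hg] at hV0e hV0n
  have hg0 : g ≠ 0 := by
    intro h0
    have h1 := hγ 0
    rw [h0] at h1
    have h2 : co (0 : E) 0 = 0 := by
      have := hc_smul 0 0 0
      rwa [zero_smul, zero_mul] at this
    rw [h2, zpow_zero, one_mul] at h1
    have h3 : γ 0 = 0 := by exact_mod_cast h1.symm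
    linarith
  have hgn : 0 < ‖g‖ := norm_pos_iff.2 hg0
  obtain ⟨s, hs⟩ : ∃ s : ℂ, s = ((‖g‖⁻¹ : ℝ) : ℂ) := ⟨_, rfl⟩
  obtain ⟨V, hV⟩ : ∃ V : E →L[ℂ] E, V = s • V0 := ⟨_, rfl⟩
  have hVn : ∀ f, ‖V f‖ = ‖f‖ := by
    intro f
    rw [hV]
    show ‖s • V0 f‖ = ‖f‖
    rw [norm_smul, hV0n, hs, Complex.norm_real, Real.norm_of_nonneg (by positivity), ← mul_assoc,
      inv_mul_cancel₀ hgn.ne', one_mul]
  have hA : (1 + (r : ℂ) • Z) * V * Z = (Z + (r : ℂ) • (1 : E →L[ℂ] E)) * V := by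
    rw [hV, mul_smul_comm, smul_mul_assoc, mul_smul_comm, hA0]
  have hB : (1 + (r : ℂ) • Z2) * V * Z2 = (Z2 + (r : ℂ) • (1 : E →L[ℂ] E)) * V := by
    rw [hV, mul_smul_comm, smul_mul_assoc, mul_smul_comm, hB0]
  have hVV : adjoint V * V = 1 := (norm_map_iff_adjoint_comp_self V).1 hVn
  -- units
  have hu1 : IsUnit (1 + (r : ℂ) • Z) := by
    have h1 := (hINV (-(r : ℂ)) (by
      rw [norm_neg, Complex.norm_real, Real.norm_of_nonneg hr0]; exact hr1)).1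
    rwa [neg_smul, sub_neg_eq_add] at h1
  have hu2 : IsUnit (Z + (r : ℂ) • (1 : E →L[ℂ] E)) := by
    have h1 := (hINV (-(r : ℂ)) (by
      rw [norm_neg, Complex.norm_real, Real.norm_of_nonneg hr0]; exact hr1)).2.2.2.2.1
    rwa [neg_smul, sub_neg_eq_add] at h1
  -- adjoint equation
  have hB' := alg_adj hZ2Zs hZsZ2 hB
  have hZs' : star Zs = Z := by
    rw [← hadZ]
    exact star_star Z
  have hC : Z * star V * (1 + (r : ℂ) • Z) = star V * (Z + (r : ℂ) • (1 : E →L[ℂ] E)) := by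
    have h1 := congrArg star hB'
    simp only [star_mul, star_add, star_smul, star_one, hZs'] at h1
    have h2 : star (r : ℂ) = (r : ℂ) := Complex.conj_ofReal r
    rw [h2] at h1
    rw [mul_assoc]
    exact h1
  have hr2 : (1 : ℂ) - (r : ℂ) ^ 2 ≠ 0 := by
    have h1 : (1 : ℝ) - r ^ 2 ≠ 0 := by nlinarith
    exact_mod_cast h1
  have hcomm : Commute (V * star V) Z := alg_comm hr2 hu1 hA hC
  have hcomm2 : (V * star V) * Zs = Zs * (V * star V) := by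
    have h1 := congrArg star hcomm.eq
    simp only [star_mul, star_star] at h1
    have h2 : star Z = Zs := hadZ
    rw [h2] at h1
    exact h1.symm
  obtain ⟨c, hcc⟩ := hIRR _ hcomm.eq hcomm2
  have hVs : star V * V = 1 := hVV
  have hVe : V (eb 0) = s • g := by
    rw [hV]
    show s • V0 (eb 0) = s • g
    rw [hV0e]
  have hs0 : s ≠ 0 := by
    rw [hs]
    exact_mod_cast (inv_pos.2 hgn).ne'
  have hVe0 : V (eb 0) ≠ 0 := by
    rw [hVe]
    exact smul_ne_zero hs0 hg0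
  have hc1 : c = 1 := by
    have h1 : (V * star V) * V = V := by rw [mul_assoc, hVs, mul_one]
    rw [hcc, smul_mul_assoc, one_mul] at h1
    have h2 : c • V (eb 0) = V (eb 0) := congrArg (fun A : E →L[ℂ] E => A (eb 0)) h1
    have h3 : (c - 1) • V (eb 0) = 0 := by rw [sub_smul, h2, one_smul, sub_self]
    rcases smul_eq_zero.1 h3 with h4 | h4
    · exact sub_eq_zero.1 h4
    · exact absurd h4 hVe0
  rw [hc1, one_smul] at hcc
  -- reality
  obtain ⟨W, hW⟩ : ∃ W : E →L[ℂ] E, ∀ f, W f = jj (V (jj f)) :=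
    ⟨LinearMap.mkContinuous
      { toFun := fun f => jj (V (jj f))
        map_add' := fun f f' => by rw [hj_add, map_add, hj_add]
        map_smul' := fun a f => by
          rw [hj_smul, map_smul, hj_smul, Complex.conj_conj, RingHom.id_apply] } 1
      (fun f => by
        show ‖jj (V (jj f))‖ ≤ 1 * ‖f‖
        rw [hj_norm, hVn, hj_norm, one_mul]), fun f => rfl⟩
  have hAx : ∀ x : E, V (Z x) + (r : ℂ) • Z (V (Z x)) = Z (V x) + (r : ℂ) • V x := fun x =>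
    congrArg (fun A : E →L[ℂ] E => A x) hA
  have hZiZ' : ∀ x : E, Z (Zi x) = x := fun x => congrArg (fun A : E →L[ℂ] E => A x) hZZi
  have hWx : ∀ x : E, Z (jj (V (Z x))) + (r : ℂ) • jj (V (Z x)) =
      jj (V x) + (r : ℂ) • Z (jj (V x)) := by
    intro x
    have h1 := congrArg jj (hAx x)
    rw [hj_add, hj_smul, hjZ, hj_add, hj_smul, hjZ, Complex.conj_ofReal] at h1
    have h2 := congrArg Z h1
    rw [map_add, map_smul, hZiZ', map_add, map_smul, hZiZ'] at h2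
    exact h2
  have hrec : ∀ n : ℤ, (1 + (r : ℂ) • Z) (V (eb (n + 1))) =
      (Z + (r : ℂ) • (1 : E →L[ℂ] E)) (V (eb n)) := by
    intro n
    have h1 := hAx (eb n)
    rw [hZe] at h1
    exact h1
  have hrecW : ∀ n : ℤ, (1 + (r : ℂ) • Z) (W (eb (n + 1))) =
      (Z + (r : ℂ) • (1 : E →L[ℂ] E)) (W (eb n)) := by
    intro n
    have h1 := hWx (eb (-(n + 1)))
    rw [hZe] at h1
    have e1 : -(n + 1) + 1 = -n := by ring
    rw [e1, ← hj_eb, ← hj_eb, ← hW, ← hW] at h1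
    exact h1.symm
  have hWV : ∀ n : ℤ, W (eb n) = V (eb n) := by
    intro n
    induction n using Int.induction_on with
    | zero =>
      rw [hW, hj_eb, neg_zero, hVe, hj_smul, hjg, hs, Complex.conj_ofReal]
    | succ i ih =>
      apply inj_of_unit hu1
      rw [hrec, hrecW, ih]
    | pred i ih =>
      apply inj_of_unit hu2
      rw [← hrec, ← hrecW, sub_add_cancel, ih]
  have hWV' : W = V := hop_ext W V hWV
  refine ⟨V, hVV, hcc, hA, ?_, fun n => ‖g‖⁻¹ * γ n, ?_, ?_, ?_⟩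
  · intro f
    have h1 := hW (jj f)
    rw [hjj, hWV'] at h1
    exact h1.symm
  · intro n
    exact mul_nonneg (by positivity) (hγ0 n)
  · exact mul_pos (by positivity) hγp
  · intro n
    rw [hVe, hc_smul, hγ, hs]
    push_cast
    ring

end Pool.Agent.W688.WH
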